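import Pool.Agent.K7.H23.PT.Stm

/-!
Job AN of project PT (MP_d88658_nt, helper23): StAN from StTY and StBL.
-/

set_option autoImplicit false

namespace Pool.Agent.K7.H99.AN

open Pool.Agent.K7.H23.PT

theorem geom (k₂ : ℕ) (S : Finset ℕ) (hS : ∀ k ∈ S, k₂ ≤ k) :
    ∑ k ∈ S, (199 / 200 : ℝ) ^ k ≤ 200 * (199 / 200 : ℝ) ^ k₂ := by
  have hs : Summable fun k : ℕ => (199 / 200 : ℝ) ^ (k + k₂) := by
    simp only [pow_add]
    exact (summable_geometric_of_lt_one (by norm_num) (by norm_num)).mul_right _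
  have h1 : ∑ k ∈ S, (199 / 200 : ℝ) ^ k = ∑ k ∈ S.image (fun k => k - k₂), (199 / 200 : ℝ) ^ (k + k₂) := by
    rw [Finset.sum_image]
    · refine Finset.sum_congr rfl fun k hk => ?_
      rw [Nat.sub_add_cancel (hS k hk)]
    · intro x hx y hy hxy
      have h2 := hS x hx
      have h3 := hS y hy
      simp only at hxy
      omega
  rw [h1]
  refine (hs.sum_le_tsum _ (fun i _ => by positivity)).trans ?_
  simp only [pow_add]
  rw [tsum_mul_right, tsum_geometric_of_lt_one (by norm_num) (by norm_num)]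
  norm_num

theorem exists_scale {k₂ : ℕ} {c : ℤ} (hc : (Xk k₂ : ℤ) ≤ c) :
    ∃ k, k₂ ≤ k ∧ (Xk k : ℤ) ≤ c ∧ c < Xk (k + 1) := by
  have hpos : ∀ k, 1 ≤ Xk k := fun k => Nat.one_le_two_pow
  have hub : ∃ k, c < Xk (k + 1) := by
    refine ⟨c.natAbs, ?_⟩
    have h1 : c.natAbs < 2 ^ c.natAbs := Nat.lt_two_pow_self
    have h2 : 2 ^ c.natAbs ≤ 2 ^ 2 ^ (c.natAbs + 1) := by
      refine Nat.pow_le_pow_right (by norm_num) ?_
      exact (Nat.lt_two_pow_self (n := c.natAbs)).le.trans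
        (Nat.pow_le_pow_right (by norm_num) (by omega))
    have h3 : (c.natAbs : ℤ) < (Xk (c.natAbs + 1) : ℤ) := by exact_mod_cast h1.trans_le h2
    exact (Int.le_natAbs).trans_lt h3
  have hmono : ∀ i j, i ≤ j → Xk i ≤ Xk j := by
    intro i j hij
    exact Nat.pow_le_pow_right (by norm_num) (Nat.pow_le_pow_right (by norm_num) hij)
  classical
  by_cases h0 : c < Xk (k₂ + 1)
  · exact ⟨k₂, le_refl _, hc, h0⟩
  · have hub' : ∃ k, k₂ ≤ k ∧ c < Xk (k + 1) := by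
      obtain ⟨k, hk⟩ := hub
      refine ⟨max k k₂, le_max_right _ _, hk.trans_le ?_⟩
      exact_mod_cast hmono _ _ (by omega)
    have hspec := Nat.find_spec hub'
    set k := Nat.find hub' with hkdef
    refine ⟨k, hspec.1, ?_, hspec.2⟩
    have hne : k ≠ k₂ := by
      intro h
      exact h0 (by rw [← h]; exact hspec.2)
    have hlt : k₂ ≤ k - 1 := by have := hspec.1; omega
    have hmin := Nat.find_min hub' (m := k - 1) (by rw [← hkdef]; have := hspec.1; omega)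
    by_contra hcon
    rw [not_le] at hcon
    apply hmin
    refine ⟨hlt, ?_⟩
    rw [Nat.sub_add_cancel (by have := hspec.1; omega)]
    exact hcon

theorem ncard_biUnion_le (S : Finset ℕ) (sc : ℕ → Set ℤ) (h : ∀ k, (sc k).Finite) :
    (⋃ k ∈ S, sc k).ncard ≤ ∑ k ∈ S, (sc k).ncard := by
  induction S using Finset.induction_on with
  | empty => simp
  | insert k T hk ih =>
    have h4 : (⋃ i ∈ insert k T, sc i) = sc k ∪ ⋃ i ∈ T, sc i := by
      ext D; simp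
    rw [h4, Finset.sum_insert hk]
    exact (Set.ncard_union_le _ _).trans (Nat.add_le_add_left ih _)

theorem stAN (hTY : StTY) (hBL : StBL) : StAN := by
  intro a b R hΔ hR hdvd ε hε
  obtain ⟨n, k₀, N₀, hn, hty⟩ := hTY _ hΔ (ε / 2) (by positivity)
  obtain ⟨C, k₁, N₁, hC, hbl⟩ := hBL a b R hΔ hR hdvd n hn
  -- choose the first scale
  obtain ⟨k₃, hk₃⟩ := exists_pow_lt_of_lt_one (x := ε / (400 * C)) (by positivity)
    (show (199 / 200 : ℝ) < 1 by norm_num)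
  set k₂ := max k₃ (max k₀ k₁) with hk₂
  have hk2 : 200 * C * (199 / 200 : ℝ) ^ k₂ ≤ ε / 2 := by
    have h1 : (199 / 200 : ℝ) ^ k₂ ≤ (199 / 200 : ℝ) ^ k₃ :=
      pow_le_pow_of_le_one (by norm_num) (by norm_num) (le_max_left _ _)
    have h2 : (199 / 200 : ℝ) ^ k₂ ≤ ε / (400 * C) := h1.trans hk₃.le
    calc 200 * C * (199 / 200 : ℝ) ^ k₂ ≤ 200 * C * (ε / (400 * C)) := by gcongr
      _ = ε / 2 := by field_simp; norm_num
  refine ⟨Xk k₂, max N₀ N₁, Nat.one_le_two_pow, fun N hN => ?_⟩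
  have hN0 : N₀ ≤ N := (le_max_left _ _).trans hN
  have hN1 : N₁ ≤ N := (le_max_right _ _).trans hN
  set bad : Set ℤ := {D : ℤ | D ≠ 0 ∧ |D| ≤ N ∧
    ¬ ((∀ k, k₀ ≤ k → Xk k ≤ N → TypK (a ^ 2 - 4 * b) k n N D) ∧ Big (a ^ 2 - 4 * b) n N D)} with hbad
  set sc : ℕ → Set ℤ := fun k => {D : ℤ | D ≠ 0 ∧ |D| ≤ N ∧ TypK (a ^ 2 - 4 * b) k n N D ∧
        Big (a ^ 2 - 4 * b) n N D ∧ ∃ c₁ c₂ m r : ℤ, D = c₁ * c₂ * m ∧ Loc a b R c₁ c₂ m r ∧
          (Xk k : ℤ) ≤ c₂ ∧ c₂ < Xk (k + 1) ∧ m ≤ 4 ^ (k + 1)} with hsc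
  set S : Finset ℕ := (Finset.range (N + 1)).filter (fun k => k₂ ≤ k ∧ Xk k ≤ N) with hS
  have hfin : ∀ T : Set ℤ, (∀ D ∈ T, |D| ≤ (N : ℤ)) → T.Finite := by
    intro T hT
    refine (Set.finite_Icc (-(N : ℤ)) N).subset fun D hD => ?_
    exact abs_le.1 (hT D hD)
  have hbadf : bad.Finite := hfin _ fun D hD => hD.2.1
  have hscf : ∀ k, (sc k).Finite := fun k => hfin _ fun D hD => hD.2.1
  have hsub : {D : ℤ | D ≠ 0 ∧ |D| ≤ N ∧ ∃ c₁ c₂ m r : ℤ, D = c₁ * c₂ * m ∧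
      Loc a b R c₁ c₂ m r ∧ ((Xk k₂ : ℕ) : ℤ) ≤ c₂ ∧ m ≤ (Nat.log 2 c₂.natAbs : ℤ) ^ 2} ⊆
      bad ∪ ⋃ k ∈ S, sc k := by
    rintro D ⟨hD0, hDN, c₁, c₂, m, r, hD, hloc, hc2, hm⟩
    by_cases htyp : (∀ k, k₀ ≤ k → Xk k ≤ N → TypK (a ^ 2 - 4 * b) k n N D) ∧
        Big (a ^ 2 - 4 * b) n N D
    · right
      obtain ⟨k, hk1, hk2', hk3⟩ := exists_scale hc2
      have hc2D : c₂ ∣ D := ⟨c₁ * m, by rw [hD]; ring⟩
      have hc2pos : 0 < c₂ := hloc.2.2.2.1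
      have hc2N : c₂ ≤ N := by
        have h1 : c₂ ∣ |D| := (dvd_abs _ _).2 hc2D
        exact (Int.le_of_dvd (abs_pos.2 hD0) h1).trans hDN
      have hXN : Xk k ≤ N := by exact_mod_cast hk2'.trans hc2N
      have hkN : k ≤ N := by
        have h1 : k < 2 ^ k := Nat.lt_two_pow_self
        have h2 : 2 ^ k < 2 ^ 2 ^ k := Nat.lt_two_pow_self
        unfold Xk at hXN
        omega
      have hkS : k ∈ S := by
        rw [hS, Finset.mem_filter, Finset.mem_range]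
        exact ⟨by omega, hk1, hXN⟩
      rw [Set.mem_iUnion₂]
      refine ⟨k, hkS, hD0, hDN, htyp.1 k ?_ hXN, htyp.2, c₁, c₂, m, r, hD, hloc, hk2', hk3, ?_⟩
      · exact (le_max_left k₀ k₁).trans ((le_max_right _ _).trans hk1)
      · refine hm.trans ?_
        have h1 : Nat.log 2 c₂.natAbs < 2 ^ (k + 1) := by
          refine Nat.log_lt_of_lt_pow (by omega) ?_
          unfold Xk at hk3
          have h2 : (c₂.natAbs : ℤ) = c₂ := Int.natAbs_of_nonneg hc2pos.le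
          have h3 : (c₂.natAbs : ℤ) < ((2 ^ 2 ^ (k + 1) : ℕ) : ℤ) := by rw [h2]; exact_mod_cast hk3
          exact_mod_cast h3
        have h4 : (Nat.log 2 c₂.natAbs : ℤ) ≤ 2 ^ (k + 1) := by exact_mod_cast h1.le
        calc (Nat.log 2 c₂.natAbs : ℤ) ^ 2 ≤ (2 ^ (k + 1)) ^ 2 := by gcongr
          _ = 4 ^ (k + 1) := by rw [← pow_mul, mul_comm, pow_mul]; norm_num
    · left
      exact ⟨hD0, hDN, htyp⟩
  have hUf : (⋃ k ∈ S, sc k).Finite := S.finite_toSet.biUnion fun k _ => hscf k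
  have h1 := Set.ncard_le_ncard hsub (hbadf.union hUf)
  have h2 := Set.ncard_union_le bad (⋃ k ∈ S, sc k)
  have h3 := ncard_biUnion_le S sc hscf
  have h4 : ((∑ k ∈ S, (sc k).ncard : ℕ) : ℝ) ≤ ε / 2 * N := by
    rw [Nat.cast_sum]
    have h5 : ∀ k ∈ S, ((sc k).ncard : ℝ) ≤ C * (199 / 200 : ℝ) ^ k * N := by
      intro k hk
      rw [hS, Finset.mem_filter] at hk
      refine hbl N k hN1 ?_ hk.2.2
      exact (le_max_right k₀ k₁).trans ((le_max_right _ _).trans hk.2.1)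
    refine (Finset.sum_le_sum h5).trans ?_
    have h6 : ∑ k ∈ S, C * (199 / 200 : ℝ) ^ k * N = C * N * ∑ k ∈ S, (199 / 200 : ℝ) ^ k := by
      rw [Finset.mul_sum]
      exact Finset.sum_congr rfl fun k _ => by ring
    rw [h6]
    have h7 := geom k₂ S fun k hk => by
      rw [hS, Finset.mem_filter] at hk
      exact hk.2.1
    calc C * N * ∑ k ∈ S, (199 / 200 : ℝ) ^ k ≤ C * N * (200 * (199 / 200 : ℝ) ^ k₂) := by gcongr
      _ = 200 * C * (199 / 200 : ℝ) ^ k₂ * N := by ring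
      _ ≤ ε / 2 * N := by gcongr
  have h5 := hty N hN0
  have h6 : (({D : ℤ | D ≠ 0 ∧ |D| ≤ N ∧ ∃ c₁ c₂ m r : ℤ, D = c₁ * c₂ * m ∧
      Loc a b R c₁ c₂ m r ∧ ((Xk k₂ : ℕ) : ℤ) ≤ c₂ ∧ m ≤ (Nat.log 2 c₂.natAbs : ℤ) ^ 2}.ncard : ℕ) : ℝ)
      ≤ (bad.ncard : ℝ) + ((∑ k ∈ S, (sc k).ncard : ℕ) : ℝ) := by
    exact_mod_cast h1.trans (h2.trans (Nat.add_le_add_left h3 _))
  refine h6.trans ?_
  have h7 : (bad.ncard : ℝ) ≤ ε / 2 * N := h5
  linarith

end Pool.Agent.K7.H99.AN
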